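import Pool.Agent.U436.HP.Main

/-!
# `d + 3` hyperplanes in general position in the projective space of dimension `d` osculate a rational normal
curve
-/

set_option autoImplicit false

namespace Pool.Agent.U436.KC

open Polynomial Finset

variable {k : Type*} [Field k] {d : ℕ}

/-- `d + 3` linear forms in `d + 1` variables, any `d + 1` of which are linearly independent, are, after a linear
change of coordinates and up to nonzero factors, the evaluations of the polynomials of degree at most `d` at
distinct points `p i`. -/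
theorem general_position [Infinite k] (ℓ : Fin (d + 3) → Fin (d + 1) → k)
    (hℓ : ∀ S : Finset (Fin (d + 3)), S.card = d + 1 → LinearIndependent k (fun i : S => ℓ i)) :
    ∃ (p c : Fin (d + 3) → k) (Ψ : degreeLT k (d + 1) ≃ₗ[k] (Fin (d + 1) → k)),
      Function.Injective p ∧ (∀ i, c i ≠ 0) ∧
        ∀ (P : degreeLT k (d + 1)) i, ∑ t, ℓ i t * Ψ P t = c i * (P : k[X]).eval (p i) := by
  classical
  -- the relations between the forms
  let T : (Fin (d + 3) → k) →ₗ[k] (Fin (d + 1) → k) := Fintype.linearCombination k ℓ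
  have hTapp : ∀ r, T r = ∑ i, r i • ℓ i := fun r => Fintype.linearCombination_apply k ℓ r
  have hspan : ∀ S : Finset (Fin (d + 3)), S.card = d + 1 → Submodule.span k (Set.range fun i : S => ℓ i) = ⊤ := by
    intro S hS
    refine (hℓ S hS).span_eq_top_of_card_eq_finrank' ?_
    simp [hS]
  obtain ⟨S0, -, hS0⟩ : ∃ S0 ⊆ (univ : Finset (Fin (d + 3))), S0.card = d + 1 :=
    Finset.exists_subset_card_eq (by simp)
  have hTsurj : LinearMap.range T = ⊤ := by
    rw [Fintype.range_linearCombination]
    refine top_le_iff.mp ((hspan S0 hS0).symm.le.trans (Submodule.span_mono ?_))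
    rintro _ ⟨i, rfl⟩
    exact ⟨i, rfl⟩
  have hker : Module.finrank k (LinearMap.ker T) = 2 := by
    have h1 := LinearMap.finrank_range_add_finrank_ker T
    rw [hTsurj, finrank_top, Module.finrank_fin_fun, Module.finrank_fin_fun] at h1
    omega
  let B := Module.finBasisOfFinrankEq k (LinearMap.ker T) hker
  set a : Fin (d + 3) → k := (B 0 : Fin (d + 3) → k) with ha
  set b : Fin (d + 3) → k := (B 1 : Fin (d + 3) → k) with hb
  have haT : T a = 0 := (B 0).2
  have hbT : T b = 0 := (B 1).2
  have hind : ∀ α β : k, α • a + β • b = 0 → α = 0 ∧ β = 0 := by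
    intro α β h
    have h1 : α • B 0 + β • B 1 = 0 := Subtype.ext h
    have h2 := B.linearIndependent
    rw [Fintype.linearIndependent_iff] at h2
    have h3 := h2 ![α, β] (by simpa [Fin.sum_univ_two] using h1)
    exact ⟨h3 0, h3 1⟩
  have hab : ∀ i l, i ≠ l → a i * b l - a l * b i ≠ 0 := by
    intro i l hil h
    obtain ⟨α, β, hne, h1, h2⟩ : ∃ α β : k, ¬ (α = 0 ∧ β = 0) ∧ α * a i + β * b i = 0 ∧
        α * a l + β * b l = 0 := by
      by_cases h0 : a i = 0 ∧ b i = 0
      · by_cases h1 : a l = 0 ∧ b l = 0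
        · exact ⟨1, 0, by simp, by simp [h0.1], by simp [h1.1]⟩
        · refine ⟨b l, -a l, fun h => h1 ⟨by simpa using h.2, h.1⟩, by rw [h0.1, h0.2]; ring, by ring⟩
      · refine ⟨b i, -a i, fun h => h0 ⟨by simpa using h.2, h.1⟩, by ring, ?_⟩
        linear_combination -h
    refine hne (hind α β ?_)
    set r : Fin (d + 3) → k := α • a + β • b with hr
    have hrT : ∑ j, r j • ℓ j = 0 := by
      rw [← hTapp, hr, map_add, map_smul, map_smul, haT, hbT, smul_zero, smul_zero, add_zero]
    have hri : r i = 0 := h1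
    have hrl : r l = 0 := h2
    set S : Finset (Fin (d + 3)) := (univ.erase i).erase l with hS
    have hScard : S.card = d + 1 := by
      rw [hS, card_erase_of_mem (mem_erase.mpr ⟨hil.symm, mem_univ l⟩), card_erase_of_mem (mem_univ i)]
      simp
    have h3 : ∑ j ∈ S, r j • ℓ j = 0 := by
      rw [← hrT]
      refine Finset.sum_subset (subset_univ S) fun j _ hj => ?_
      have : j = i ∨ j = l := by
        by_contra hcon
        push Not at hcon
        exact hj (by rw [hS]; exact mem_erase.mpr ⟨hcon.2, mem_erase.mpr ⟨hcon.1, mem_univ j⟩⟩)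
      rcases this with rfl | rfl
      · rw [hri, zero_smul]
      · rw [hrl, zero_smul]
    have h4 := hℓ S hScard
    rw [Fintype.linearIndependent_iff] at h4
    have h5 := h4 (fun j => r j) (by rw [← h3, ← Finset.sum_coe_sort S])
    ext j
    by_cases hj : j ∈ S
    · exact h5 ⟨j, hj⟩
    · have : j = i ∨ j = l := by
        by_contra hcon
        push Not at hcon
        exact hj (by rw [hS]; exact mem_erase.mpr ⟨hcon.2, mem_erase.mpr ⟨hcon.1, mem_univ j⟩⟩)
      rcases this with rfl | rfl
      · exact hri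
      · exact hrl
  obtain ⟨p, c', hp, hc', hpts⟩ := HP.two_forms hab (by omega) 1
  set c : Fin (d + 3) → k := fun i => HP.wt p i / c' i with hcdef
  have hc0 : ∀ i, c i ≠ 0 := fun i => div_ne_zero (HP.wt_ne_zero hp i) (hc' i)
  -- the values of the forms
  let V : (Fin (d + 1) → k) →ₗ[k] (Fin (d + 3) → k) := Matrix.mulVecLin (Matrix.of ℓ)
  have hV : ∀ v i, V v i = ∑ t, ℓ i t * v t := fun v i => rfl
  have hV0 : ∀ v, V v = 0 → v = 0 := by
    intro v hv
    have h1 : ∀ w ∈ Submodule.span k (Set.range fun i : S0 => ℓ i), ∑ t, w t * v t = 0 := by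
      intro w hw
      induction hw using Submodule.span_induction with
      | mem x hx =>
        obtain ⟨i, rfl⟩ := hx
        exact (hV v i).symm.trans (congrFun hv i)
      | zero => simp
      | add x y _ _ hx hy =>
        simp only [Pi.add_apply, add_mul, Finset.sum_add_distrib, hx, hy, add_zero]
      | smul e x _ hx =>
        simp only [Pi.smul_apply, smul_eq_mul, mul_assoc, ← Finset.mul_sum, hx, mul_zero]
    ext t
    have h2 := h1 (Pi.single t 1) (by rw [hspan S0 hS0]; exact Submodule.mem_top)
    simpa [Pi.single_apply] using h2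
  have hex : ∀ v : Fin (d + 1) → k, ∃ P : k[X], P.natDegree ≤ d ∧ ∀ i, P.eval (p i) = V v i / c i := by
    intro v
    by_cases hv : V v = 0
    · exact ⟨0, by simp, fun i => by rw [hv]; simp⟩
    · have hmem : V v ∈ HP.pts 1 2 p c' := by
        rw [hpts]
        have key : ∀ r : Fin (d + 3) → k, T r = 0 → ∑ i, r i * V v i ^ 1 = 0 := by
          intro r hr
          have : ∀ t, ∑ i, r i * ℓ i t = 0 := by
            intro t
            have := congrFun hr t
            rw [hTapp] at this
            simpa using this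
          simp only [pow_one, hV, Finset.mul_sum]
          rw [Finset.sum_comm]
          refine Finset.sum_eq_zero fun t _ => ?_
          rw [Finset.sum_congr rfl fun i _ => (mul_assoc (r i) (ℓ i t) (v t)).symm, ← Finset.sum_mul, this,
            zero_mul]
        exact ⟨hv, key a haT, key b hbT⟩
      obtain ⟨_, P, hPd, hP⟩ := (HP.mem_pts_iff (d := d) hp (by omega)).mp hmem
      refine ⟨P, hPd, fun i => ?_⟩
      have h1 := hP i
      rw [pow_one] at h1
      have h2 := hc' i
      have h3 := HP.wt_ne_zero hp i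
      rw [hcdef]
      show P.eval (p i) = V v i / (HP.wt p i / c' i)
      rw [eq_div_iff (div_ne_zero h3 h2), mul_div_assoc', mul_comm, h1, mul_div_cancel_left₀ _ h2]
  let Θ' : (Fin (d + 1) → k) →ₗ[k] k[X] :=
    (Lagrange.interpolate univ p).comp ((LinearMap.pi fun i => (c i)⁻¹ • LinearMap.proj i).comp V)
  have hΘ' : ∀ v i, (Θ' v).eval (p i) = V v i / c i := by
    intro v i
    show (Lagrange.interpolate univ p _).eval (p i) = _
    rw [Lagrange.eval_interpolate_at_node _ (hp.injOn) (mem_univ i)]
    show (c i)⁻¹ * V v i = _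
    rw [div_eq_mul_inv, mul_comm]
  have hΘdeg : ∀ v, Θ' v ∈ degreeLT k (d + 1) := by
    intro v
    obtain ⟨P, hPd, hP⟩ := hex v
    have h1 : (Θ' v).degree < ((d + 3 : ℕ) : WithBot ℕ) := by
      have := Lagrange.degree_interpolate_lt (r := ((LinearMap.pi fun i => (c i)⁻¹ • LinearMap.proj i).comp V) v)
        (s := univ) (v := p) hp.injOn
      rw [Finset.card_univ, Fintype.card_fin] at this
      exact this
    have h2 : Θ' v - P = 0 := by
      refine HP.poly_eq_zero hp ?_ fun i => ?_
      · refine lt_of_le_of_lt (natDegree_sub_le _ _) (max_lt ?_ (by omega))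
        by_cases h0 : Θ' v = 0
        · rw [h0]; simp
        · exact (natDegree_lt_iff_degree_lt h0).mpr h1
      · rw [eval_sub, hΘ', hP, sub_self]
    rw [sub_eq_zero.mp h2, mem_degreeLT]
    by_cases h0 : P = 0
    · rw [h0, degree_zero]; exact WithBot.bot_lt_coe _
    · exact (natDegree_lt_iff_degree_lt h0).mp (by omega)
  let Θ : (Fin (d + 1) → k) →ₗ[k] degreeLT k (d + 1) := Θ'.codRestrict _ hΘdeg
  have hΘinj : Function.Injective Θ := by
    rw [← LinearMap.ker_eq_bot, LinearMap.ker_eq_bot']
    intro v hv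
    have h1 : Θ' v = 0 := congrArg Subtype.val hv
    refine hV0 v (funext fun i => ?_)
    have h2 := hΘ' v i
    rw [h1, eval_zero] at h2
    have := hc0 i
    rw [Pi.zero_apply]
    exact (div_eq_zero_iff.mp h2.symm).resolve_right this
  let e1 : (Fin (d + 1) → k) ≃ₗ[k] (Fin (d + 1) → k) :=
    LinearEquiv.ofInjectiveEndo ((degreeLTEquiv k (d + 1)).toLinearMap.comp Θ)
      ((degreeLTEquiv k (d + 1)).injective.comp hΘinj)
  refine ⟨p, c, (degreeLTEquiv k (d + 1)).trans e1.symm, hp, hc0, fun P i => ?_⟩
  set v : Fin (d + 1) → k := (degreeLTEquiv k (d + 1)).trans e1.symm P with hv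
  have h1 : e1 v = degreeLTEquiv k (d + 1) P := by
    rw [hv, LinearEquiv.trans_apply, LinearEquiv.apply_symm_apply]
  have h2 : Θ v = P := (degreeLTEquiv k (d + 1)).injective h1
  rw [← h2, ← hV v i]
  have h3 := hΘ' v i
  show V v i = c i * (Θ' v).eval (p i)
  rw [h3, mul_div_cancel₀ _ (hc0 i)]

end Pool.Agent.U436.KC
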