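import Pool.Agent.U436.HP.Poly

/-!
# Branched abelian coverings of projective space, branched along osculating hyperplanes of a rational
# normal curve, as finite quotients of powers of curves
-/

set_option autoImplicit false

namespace Pool.Agent.U436.KC

open Polynomial Finset

variable {k : Type*} [Field k] {N r d : ℕ}

/-- The points `(P, y)` with `P ≠ 0` a polynomial of degree at most `d` (a point of the projective space of
dimension `d`, up to scalars) and `y s ^ n s = ∏ i, P (p i) ^ A s i`. -/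
def cover (d : ℕ) (p : Fin N → k) (A : Fin r → Fin N → ℕ) (n : Fin r → ℕ) : Set (k[X] × (Fin r → k)) :=
  {z | z.1 ≠ 0 ∧ z.1.natDegree ≤ d ∧ ∀ s, z.2 s ^ n s = ∏ i, z.1.eval (p i) ^ A s i}

/-- The product map. -/
noncomputable def prodMap (u : Fin d → k[X] × (Fin r → k)) : k[X] × (Fin r → k) :=
  (∏ j, (u j).1, fun s => ∏ j, (u j).2 s)

variable {p : Fin N → k} {A : Fin r → Fin N → ℕ} {n : Fin r → ℕ}

theorem prodMap_mem {u : Fin d → k[X] × (Fin r → k)} (hu : ∀ j, u j ∈ cover 1 p A n) :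
    prodMap u ∈ cover d p A n := by
  refine ⟨?_, ?_, fun s => ?_⟩
  · show ∏ j, (u j).1 ≠ 0
    exact Finset.prod_ne_zero_iff.mpr fun j _ => (hu j).1
  · show (∏ j, (u j).1).natDegree ≤ d
    rw [natDegree_prod _ _ fun j _ => (hu j).1]
    refine (Finset.sum_le_sum fun j _ => (hu j).2.1).trans ?_
    simp
  · show (∏ j, (u j).2 s) ^ n s = ∏ i, (∏ j, (u j).1).eval (p i) ^ A s i
    rw [← Finset.prod_pow, Finset.prod_congr rfl fun j _ => (hu j).2.2 s, Finset.prod_comm]
    refine Finset.prod_congr rfl fun i _ => ?_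
    rw [eval_prod, Finset.prod_pow]

theorem prodMap_surj [IsAlgClosed k] (hd : 1 ≤ d) (hn : ∀ s, n s ≠ 0) {z : k[X] × (Fin r → k)}
    (hz : z ∈ cover d p A n) :
    ∃ u : Fin d → k[X] × (Fin r → k), (∀ j, u j ∈ cover 1 p A n) ∧ prodMap u = z := by
  classical
  obtain ⟨P, y⟩ := z
  obtain ⟨hP0, hPd, hy⟩ := hz
  simp only at hP0 hPd hy
  obtain ⟨L0, c, hc, hL0, hP⟩ := HP.exists_linear_factors d P hP0 hPd
  let j0 : Fin d := ⟨0, hd⟩
  obtain ⟨L, hL, hPL⟩ : ∃ L : Fin d → k[X], (∀ j, L j ≠ 0 ∧ (L j).natDegree ≤ 1) ∧ P = ∏ j, L j := by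
    refine ⟨fun j => C (if j = j0 then c else 1) * L0 j, fun j => ⟨?_, ?_⟩, ?_⟩
    · refine mul_ne_zero ?_ (hL0 j).1
      rw [Ne, C_eq_zero]
      split_ifs
      · exact hc
      · exact one_ne_zero
    · exact (natDegree_C_mul_le _ _).trans (hL0 j).2
    · rw [Finset.prod_mul_distrib, hP]
      congr 1
      rw [← map_prod, Finset.prod_ite_eq' univ j0, if_pos (mem_univ _)]
  choose v hv using fun (j : Fin d) (s : Fin r) =>
    IsAlgClosed.exists_pow_nat_eq (∏ i, (L j).eval (p i) ^ A s i) (Nat.pos_of_ne_zero (hn s))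
  have hζ : ∀ s, ∃ ζ : k, ζ ^ n s = 1 ∧ y s = ζ * ∏ j, v j s := by
    intro s
    have hpow : y s ^ n s = (∏ j, v j s) ^ n s := by
      rw [hy, hPL, ← Finset.prod_pow, Finset.prod_congr rfl fun j _ => hv j s, Finset.prod_comm]
      refine Finset.prod_congr rfl fun i _ => ?_
      rw [eval_prod, Finset.prod_pow]
    by_cases h0 : ∏ j, v j s = 0
    · refine ⟨1, one_pow _, ?_⟩
      rw [h0, zero_pow (hn s)] at hpow
      rw [(pow_eq_zero_iff (hn s)).mp hpow, h0, mul_zero]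
    · refine ⟨y s / ∏ j, v j s, ?_, ?_⟩
      · rw [div_pow, hpow, div_self (pow_ne_zero _ h0)]
      · rw [div_mul_cancel₀ _ h0]
  choose ζ hζ1 hζy using hζ
  refine ⟨fun j => (L j, fun s => (if j = j0 then ζ s else 1) * v j s), fun j => ⟨(hL j).1, (hL j).2, fun s => ?_⟩,
    Prod.ext hPL.symm (funext fun s => ?_)⟩
  · show ((if j = j0 then ζ s else 1) * v j s) ^ n s = _
    rw [mul_pow, hv]
    split_ifs
    · rw [hζ1, one_mul]
    · rw [one_pow, one_mul]
  · show ∏ j, ((if j = j0 then ζ s else 1) * v j s) = y s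
    rw [Finset.prod_mul_distrib, Finset.prod_ite_eq' univ j0, if_pos (mem_univ _), hζy s]

/-- The fibres of the product map, for points up to the action `(t ^ E0 * P, t ^ E s * y s)` of the scalars. -/
theorem prodMap_eq_iff [IsAlgClosed k] (hn : ∀ s, n s ≠ 0) {E0 : ℕ} (hE0 : E0 ≠ 0) {E : Fin r → ℕ}
    (hE : ∀ s, n s * E s = E0 * ∑ i, A s i) {u u' : Fin d → k[X] × (Fin r → k)}
    (hu : ∀ j, u j ∈ cover 1 p A n) (hu' : ∀ j, u' j ∈ cover 1 p A n) :
    (∃ t : k, t ≠ 0 ∧ (prodMap u').1 = C (t ^ E0) * (prodMap u).1 ∧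
        ∀ s, (prodMap u').2 s = t ^ E s * (prodMap u).2 s) ↔
      ∃ (σ : Equiv.Perm (Fin d)) (ζ : Fin d → Fin r → k) (τ : k) (κ : Fin d → k),
        (∀ j s, ζ j s ^ n s = 1) ∧ τ ^ E0 = 1 ∧ (∀ s, ∏ j, ζ j s = τ ^ E s) ∧ (∀ j, κ j ≠ 0) ∧
          ∀ j, (u' j).1 = C (κ j ^ E0) * (u (σ j)).1 ∧
            ∀ s, (u' j).2 s = κ j ^ E s * (ζ j s * (u (σ j)).2 s) := by
  classical
  constructor
  · rintro ⟨t, ht, h1, h2⟩
    have hS0 : ∏ j, (u j).1 ≠ 0 := Finset.prod_ne_zero_iff.mpr fun j _ => (hu j).1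
    have htn : t ^ E0 ≠ 0 := pow_ne_zero _ ht
    have hprod : ∏ j, (u' j).1 = C (t ^ E0) * ∏ j, (u j).1 := h1
    have hprod2 : ∏ j, (u j).1 = C ((t ^ E0)⁻¹) * ∏ j, (u' j).1 := by
      rw [hprod, ← mul_assoc, ← C_mul, inv_mul_cancel₀ htn, C_1, one_mul]
    obtain ⟨σ, hσ⟩ := HP.exists_perm (inv_ne_zero htn) (fun j => ⟨(hu j).1, (hu j).2.1⟩)
      (fun j => ⟨(hu' j).1, (hu' j).2.1⟩) hprod2
    choose a ha0 ha using hσ
    choose κ hκ using fun j => IsAlgClosed.exists_pow_nat_eq (a j) (Nat.pos_of_ne_zero hE0)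
    have hκ0 : ∀ j, κ j ≠ 0 := by
      intro j h0
      have := hκ j
      rw [h0, zero_pow hE0] at this
      exact ha0 j this.symm
    have hpow : ∀ j s, (u' j).2 s ^ n s = (κ j ^ E s * (u (σ j)).2 s) ^ n s := by
      intro j s
      rw [(hu' j).2.2 s, mul_pow, ← pow_mul, mul_comm (E s), hE, (hu (σ j)).2.2 s, pow_mul, hκ,
        ← Finset.prod_pow_eq_pow_sum, ← Finset.prod_mul_distrib]
      refine Finset.prod_congr rfl fun i _ => ?_
      rw [ha, eval_mul, eval_C, mul_pow]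
    have hz0 : ∀ j s, ∃ z : k, z ^ n s = 1 ∧ (u' j).2 s = κ j ^ E s * (z * (u (σ j)).2 s) := by
      intro j s
      by_cases h0 : (u (σ j)).2 s = 0
      · refine ⟨1, one_pow _, ?_⟩
        have := hpow j s
        rw [h0, mul_zero, zero_pow (hn s)] at this
        rw [(pow_eq_zero_iff (hn s)).mp this, h0]; ring
      · have h1 : κ j ^ E s * (u (σ j)).2 s ≠ 0 := mul_ne_zero (pow_ne_zero _ (hκ0 j)) h0
        refine ⟨(u' j).2 s / (κ j ^ E s * (u (σ j)).2 s), ?_, ?_⟩
        · rw [div_pow, hpow j s, div_self (pow_ne_zero _ h1)]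
        · have e : κ j ^ E s * ((u' j).2 s / (κ j ^ E s * (u (σ j)).2 s) * (u (σ j)).2 s) =
              (u' j).2 s / (κ j ^ E s * (u (σ j)).2 s) * (κ j ^ E s * (u (σ j)).2 s) := by ring
          rw [e, div_mul_cancel₀ _ h1]
    choose z hz1 hz using hz0
    have hK0 : ∏ j, κ j ≠ 0 := Finset.prod_ne_zero_iff.mpr fun j _ => hκ0 j
    set τ : k := t / ∏ j, κ j with hτ
    have hτt : τ * ∏ j, κ j = t := div_mul_cancel₀ _ hK0
    have hτ0 : τ ^ E0 = 1 := by
      have e1 : C (∏ j, a j) * ∏ j, (u j).1 = C (t ^ E0) * ∏ j, (u j).1 := by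
        rw [← hprod, Finset.prod_congr rfl fun j _ => ha j, Finset.prod_mul_distrib, ← map_prod,
          Equiv.prod_comp σ (fun j => (u j).1)]
      have e2 : ∏ j, a j = t ^ E0 := C_injective (mul_right_cancel₀ hS0 e1)
      rw [hτ, div_pow, ← Finset.prod_pow, Finset.prod_congr rfl fun j _ => hκ j, e2, div_self htn]
    have hcomp : ∀ s, (∏ j, κ j) ^ E s * (∏ j, z j s) * ∏ j, (u j).2 s = t ^ E s * ∏ j, (u j).2 s := by
      intro s
      have e1 : ∏ j, (u' j).2 s = t ^ E s * ∏ j, (u j).2 s := h2 s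
      rw [← e1, Finset.prod_congr rfl fun j _ => hz j s, Finset.prod_mul_distrib, Finset.prod_mul_distrib,
        Equiv.prod_comp σ (fun j => (u j).2 s), Finset.prod_pow]
      ring
    have hgood : ∀ s, ∏ j, (u j).2 s ≠ 0 → ∏ j, z j s = τ ^ E s := by
      intro s hs
      have h1 := mul_right_cancel₀ hs (hcomp s)
      refine mul_left_cancel₀ (pow_ne_zero (E s) hK0) ?_
      rw [h1, ← mul_pow, mul_comm, hτt]
    have hfin : ∀ s, ∃ w : Fin d → k, (∀ j, w j ^ n s = 1) ∧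
        (∀ j, (u' j).2 s = κ j ^ E s * (w j * (u (σ j)).2 s)) ∧ ∏ j, w j = τ ^ E s := by
      intro s
      by_cases hs : ∏ j, (u j).2 s = 0
      · obtain ⟨j1, _, hj1⟩ := Finset.prod_eq_zero_iff.mp hs
        set j0 := σ.symm j1 with hj0
        have hy0 : (u (σ j0)).2 s = 0 := by rw [hj0, Equiv.apply_symm_apply]; exact hj1
        have hz0 : ∀ j, z j s ≠ 0 := by
          intro j h0
          have := hz1 j s
          rw [h0, zero_pow (hn s)] at this
          exact zero_ne_one this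
        have hτs : (τ ^ E s) ^ n s = 1 := by
          rw [← pow_mul, mul_comm (E s), hE, pow_mul, hτ0, one_pow]
        refine ⟨Function.update (fun j => z j s) j0 (τ ^ E s * (∏ j ∈ univ.erase j0, z j s)⁻¹), fun j => ?_,
          fun j => ?_, ?_⟩
        · by_cases hj : j = j0
          · subst hj
            rw [Function.update_self, mul_pow, hτs, one_mul, inv_pow, ← Finset.prod_pow]
            simp [hz1]
          · rw [Function.update_of_ne hj]; exact hz1 j s
        · by_cases hj : j = j0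
          · rw [hj, hz j0 s, hy0]; ring
          · rw [Function.update_of_ne hj]; exact hz j s
        · rw [← Finset.mul_prod_erase univ _ (mem_univ j0), Function.update_self]
          rw [Finset.prod_congr rfl fun j hj => Function.update_of_ne (Finset.ne_of_mem_erase hj) _ _]
          rw [mul_assoc, inv_mul_cancel₀ (Finset.prod_ne_zero_iff.mpr fun j _ => hz0 j), mul_one]
      · exact ⟨fun j => z j s, fun j => hz1 j s, fun j => hz j s, hgood s hs⟩
    choose w hw1 hw2 hw3 using hfin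
    exact ⟨σ, fun j s => w s j, τ, κ, fun j s => hw1 s j, hτ0, hw3, hκ0, fun j =>
      ⟨by rw [hκ]; exact ha j, fun s => hw2 s j⟩⟩
  · rintro ⟨σ, ζ, τ, κ, hζ, hτ, hτs, hκ, h⟩
    have hτ0 : τ ≠ 0 := by
      rintro rfl
      rw [zero_pow hE0] at hτ
      exact zero_ne_one hτ
    refine ⟨τ * ∏ j, κ j, mul_ne_zero hτ0 (Finset.prod_ne_zero_iff.mpr fun j _ => hκ j), ?_, fun s => ?_⟩
    · show ∏ j, (u' j).1 = C ((τ * ∏ j, κ j) ^ E0) * ∏ j, (u j).1
      rw [Finset.prod_congr rfl fun j _ => (h j).1, Finset.prod_mul_distrib, ← map_prod,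
        Equiv.prod_comp σ (fun j => (u j).1), mul_pow, hτ, one_mul, Finset.prod_pow]
    · show ∏ j, (u' j).2 s = (τ * ∏ j, κ j) ^ E s * ∏ j, (u j).2 s
      rw [Finset.prod_congr rfl fun j _ => (h j).2 s, Finset.prod_mul_distrib, Finset.prod_mul_distrib,
        Equiv.prod_comp σ (fun j => (u j).2 s), hτs, mul_pow, Finset.prod_pow]
      ring

end Pool.Agent.U436.KC
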